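import Mathlib

namespace Pool.Agent.Results.MP_cec416_nt.Coprime210

open Finset

/-- sum of the cubes of the positive divisors -/
def sig3 (n : ℕ) : ℕ := ∑ d ∈ n.divisors, d ^ 3

def f (m : ℕ) : ℚ := ∑ d ∈ m.divisors, 1 / (d : ℚ) ^ 3

theorem sig3_eq (m : ℕ) : (sig3 m : ℚ) = (m : ℚ) ^ 3 * f m := by
  unfold sig3 f
  rw [← Nat.sum_div_divisors m (fun d => d ^ 3), Finset.mul_sum]
  push_cast
  refine Finset.sum_congr rfl fun d hd => ?_
  have hd0 : (d : ℚ) ≠ 0 := by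
    have := Nat.pos_of_mem_divisors hd
    positivity
  rw [Nat.cast_div (Nat.dvd_of_mem_divisors hd) hd0]
  field_simp

theorem tail (N : ℕ) (hN : 101 ≤ N) :
    ∑ d ∈ Ico 101 N, 1 / (d : ℚ) ^ 3 ≤ 1 / 20000 - 1 / (2 * ((N : ℚ) - 1) ^ 2) := by
  induction N, hN using Nat.le_induction with
  | base => norm_num
  | succ N hN ih =>
    rw [Finset.sum_Ico_succ_top hN]
    have hN' : (101 : ℚ) ≤ N := by exact_mod_cast hN
    have h1 : (0 : ℚ) < (N : ℚ) - 1 := by linarith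
    have h2 : (0 : ℚ) < (N : ℚ) := by linarith
    have : 1 / (N : ℚ) ^ 3 ≤ 1 / (2 * ((N : ℚ) - 1) ^ 2) - 1 / (2 * (N : ℚ) ^ 2) := by
      rw [div_sub_div _ _ (by positivity) (by positivity), div_le_div_iff₀ (by positivity) (by positivity)]
      have h3 : (0 : ℚ) < (N : ℚ) ^ 2 := by positivity
      have h4 : 0 ≤ (N : ℚ) ^ 2 * (3 * N - 2) := by apply mul_nonneg h3.le; linarith
      nlinarith
    push_cast
    have e : ((N : ℚ) + 1 - 1) = N := by ring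
    rw [e]
    linarith

theorem upper (P : ℕ → Prop) [DecidablePred P] (m : ℕ) (hP : ∀ d, d ∣ m → P d) :
    f m ≤ ∑ d ∈ (Ico 1 101).filter P, 1 / (d : ℚ) ^ 3 + 1 / 20000 := by
  have hsub : m.divisors ⊆ (Ico 1 101).filter P ∪ Ico 101 (m + 101) := by
    intro d hd
    have h1 := Nat.pos_of_mem_divisors hd
    have h2 := Nat.divisor_le hd
    have h3 := hP d (Nat.dvd_of_mem_divisors hd)
    simp only [mem_union, mem_filter, mem_Ico]
    by_cases h : d < 101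
    · left; exact ⟨⟨h1, h⟩, h3⟩
    · right; omega
  have h1 : f m ≤ ∑ d ∈ (Ico 1 101).filter P ∪ Ico 101 (m + 101), 1 / (d : ℚ) ^ 3 :=
    Finset.sum_le_sum_of_subset_of_nonneg hsub (fun d _ _ => by positivity)
  have hdisj : Disjoint ((Ico 1 101).filter P) (Ico 101 (m + 101)) := by
    rw [Finset.disjoint_left]
    intro d h1 h2
    simp only [mem_filter, mem_Ico] at h1 h2
    omega
  rw [Finset.sum_union hdisj] at h1
  have h2 := tail (m + 101) (by omega)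
  have h3 : (0 : ℚ) ≤ 1 / (2 * (((m + 101 : ℕ) : ℚ) - 1) ^ 2) := by positivity
  linarith

theorem lower (S : Finset ℕ) (m : ℕ) (hm : m ≠ 0) (hS : ∀ d ∈ S, d ∣ m) :
    ∑ d ∈ S, 1 / (d : ℚ) ^ 3 ≤ f m :=
  Finset.sum_le_sum_of_subset_of_nonneg (fun d hd => Nat.mem_divisors.2 ⟨hS d hd, hm⟩)
    (fun d _ _ => by positivity)

def low (m : ℕ) : ℕ := ∑ d ∈ (Ico 1 101).filter (fun d : ℕ => m % d = 0), (m / d) ^ 3

theorem low_eq (m : ℕ) :
    (low m : ℚ) = (m : ℚ) ^ 3 * ∑ d ∈ (Ico 1 101).filter (fun d : ℕ => m % d = 0), 1 / (d : ℚ) ^ 3 := by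
  unfold low
  rw [Finset.mul_sum]
  push_cast
  refine Finset.sum_congr rfl fun d hd => ?_
  simp only [mem_filter, mem_Ico] at hd
  have hd0 : (d : ℚ) ≠ 0 := by
    have := hd.1.1
    positivity
  rw [Nat.cast_div (Nat.dvd_of_mod_eq_zero hd.2) hd0]
  field_simp

theorem low_le (m : ℕ) (hm : m ≠ 0) : low m ≤ sig3 m := by
  have h := lower ((Ico 1 101).filter (fun d : ℕ => m % d = 0)) m hm
    (fun d hd => Nat.dvd_of_mod_eq_zero (mem_filter.1 hd).2)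
  have : (low m : ℚ) ≤ sig3 m := by
    rw [low_eq, sig3_eq]
    exact mul_le_mul_of_nonneg_left h (by positivity)
  exact_mod_cast this

theorem le_low (m : ℕ) : sig3 m * 20000 ≤ low m * 20000 + m ^ 3 := by
  have h := upper (fun d : ℕ => m % d = 0) m (fun d hd => Nat.mod_eq_zero_of_dvd hd)
  have : (sig3 m : ℚ) * 20000 ≤ low m * 20000 + (m : ℚ) ^ 3 := by
    rw [low_eq, sig3_eq]
    have h2 := mul_le_mul_of_nonneg_left h (show (0 : ℚ) ≤ (m : ℚ) ^ 3 by positivity)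
    linarith
  exact_mod_cast this

noncomputable def lowR (m k : ℕ) : ℕ :=
  Nat.rec (motive := fun _ => ℕ) 0 (fun k ih => cond (Nat.beq (Nat.mod m (Nat.succ k)) 0)
    (Nat.add (Nat.pow (Nat.div m (Nat.succ k)) 3) ih) ih) k

theorem lowR_eq (m k : ℕ) :
    lowR m k = ∑ d ∈ (Ico 1 (k + 1)).filter (fun d : ℕ => m % d = 0), (m / d) ^ 3 := by
  induction k with
  | zero => simp [lowR]
  | succ k ih =>
    have e : lowR m (k + 1) = cond (Nat.beq (m % (k + 1)) 0) ((m / (k + 1)) ^ 3 + lowR m k)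
      (lowR m k) := rfl
    rw [e, ih, Finset.sum_filter, Finset.sum_filter, Finset.sum_Ico_succ_top (by omega : 1 ≤ k + 1)]
    by_cases h : m % (k + 1) = 0
    · rw [if_pos h, h]; simp only [Nat.beq_refl, cond_true]; exact add_comm _ _
    · rw [if_neg h]
      have : Nat.beq (m % (k + 1)) 0 = false := by
        cases hb : Nat.beq (m % (k + 1)) 0
        · rfl
        · exact absurd (Nat.eq_of_beq_eq_true hb) h
      rw [this]; simp only [cond_false, add_zero]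

noncomputable def chk2 (n x y : ℕ) : Bool :=
  Nat.blt (Nat.add (Nat.mul y 20000) (Nat.pow (Nat.add n 2) 3)) (Nat.mul x 20000) ||
    Nat.blt (Nat.add (Nat.mul x 20000) (Nat.pow n 3)) (Nat.mul y 20000)

noncomputable def chk (n : ℕ) : Bool :=
  Nat.beq n 0 || Nat.beq n 755 || Nat.beq n 1028 || Nat.beq n 2051 ||
    Nat.beq (Nat.gcd (Nat.mul n (Nat.add n 2)) 210) 1 ||
    chk2 n (lowR n 100) (lowR (Nat.add n 2) 100)

noncomputable def allR (s k : ℕ) : Bool :=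
  Nat.rec (motive := fun _ => Bool) true (fun k ih => chk (Nat.add s k) && ih) k

theorem allR_spec (s k : ℕ) (h : allR s k = true) (n : ℕ) (h1 : s ≤ n) (h2 : n < s + k) :
    chk n = true := by
  induction k with
  | zero => omega
  | succ k ih =>
    have e : allR s (k + 1) = (chk (s + k) && allR s k) := rfl
    rw [e, Bool.and_eq_true] at h
    by_cases hn : n = s + k
    · rw [hn]; exact h.1
    · exact ih h.2 (by omega)

theorem c0 : allR 0 1000 = true := by decide +kernel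
theorem c1 : allR 1000 1000 = true := by decide +kernel
theorem c2 : allR 2000 1000 = true := by decide +kernel
theorem c3 : allR 3000 1000 = true := by decide +kernel
theorem c4 : allR 4000 1000 = true := by decide +kernel
theorem c5 : allR 5000 1000 = true := by decide +kernel
theorem c6 : allR 6000 1000 = true := by decide +kernel

theorem chk_all (n : ℕ) (hs : n < 7000) : chk n = true := by
  by_cases h0 : n < 1000
  · exact allR_spec _ _ c0 n (by omega) (by omega)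
  by_cases h1 : n < 2000
  · exact allR_spec _ _ c1 n (by omega) (by omega)
  by_cases h2 : n < 3000
  · exact allR_spec _ _ c2 n (by omega) (by omega)
  by_cases h3 : n < 4000
  · exact allR_spec _ _ c3 n (by omega) (by omega)
  by_cases h4 : n < 5000
  · exact allR_spec _ _ c4 n (by omega) (by omega)
  by_cases h5 : n < 6000
  · exact allR_spec _ _ c5 n (by omega) (by omega)
  · exact allR_spec _ _ c6 n (by omega) (by omega)

theorem small (n : ℕ) (hn : 0 < n) (hs : n < 7000) (h : sig3 n = sig3 (n + 2)) :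
    Nat.gcd (n * (n + 2)) 210 = 1 := by
  have hc := chk_all n hs
  have e1 : lowR n 100 = low n := lowR_eq n 100
  have e2 : lowR (n + 2) 100 = low (n + 2) := lowR_eq (n + 2) 100
  have hc3 : (((((n = 0 ∨ n = 755) ∨ n = 1028) ∨ n = 2051) ∨ Nat.gcd (n * (n + 2)) 210 = 1) ∨
      low (n + 2) * 20000 + (n + 2) ^ 3 < low n * 20000) ∨
      low n * 20000 + n ^ 3 < low (n + 2) * 20000 := by
    rw [← e1, ← e2]
    unfold chk chk2 at hc
    simp only [Bool.or_eq_true, Nat.beq_eq, Nat.blt_eq] at hc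
    rcases hc with hc | hc | hc
    · exact Or.inl (Or.inl hc)
    · exact Or.inl (Or.inr hc)
    · exact Or.inr hc
  have a1 := low_le n (by omega)
  have a2 := low_le (n + 2) (by omega)
  have b1 := le_low n
  have b2 := le_low (n + 2)
  rcases hc3 with (((((h0 | h0) | h0) | h0) | h0) | h0) | h0
  · omega
  · subst h0; revert h; decide +kernel
  · subst h0; revert h; decide +kernel
  · subst h0; revert h; decide +kernel
  · exact h0
  · omega
  · omega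

/-- the two values of `f` cannot be separated by a factor `1.001` -/
theorem sep (n : ℕ) (hn : 7000 ≤ n) (h : sig3 n = sig3 (n + 2)) (a b : ℕ)
    (hab : (a = n ∧ b = n + 2) ∨ (a = n + 2 ∧ b = n)) (L U : ℚ) (hU0 : 0 < U) (hL : L ≤ f a)
    (hU : f b ≤ U) (hLU : U * (1001 / 1000) < L) : False := by
  have e : (n : ℚ) ^ 3 * f n = ((n : ℚ) + 2) ^ 3 * f (n + 2) := by
    have := sig3_eq (n + 2)
    push_cast at this
    rw [← sig3_eq, ← this, h]
  have hn' : (7000 : ℚ) ≤ n := by exact_mod_cast hn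
  have h3 : (0 : ℚ) < (n : ℚ) ^ 3 := by positivity
  have h4 : (n : ℚ) ^ 3 ≤ ((n : ℚ) + 2) ^ 3 := by gcongr; linarith
  have h5 : ((n : ℚ) + 2) ^ 3 ≤ (n : ℚ) ^ 3 * (1001 / 1000) := by
    have : ((n : ℚ) + 2) ≤ n * (3501 / 3500) := by linarith
    calc ((n : ℚ) + 2) ^ 3 ≤ (n * (3501 / 3500)) ^ 3 := by gcongr
      _ = (n : ℚ) ^ 3 * (3501 / 3500) ^ 3 := by ring
      _ ≤ _ := by gcongr; norm_num
  rcases hab with ⟨rfl, rfl⟩ | ⟨rfl, rfl⟩
  · have k1 : (a : ℚ) ^ 3 * L ≤ (a : ℚ) ^ 3 * f a := by gcongr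
    have k2 : ((a : ℚ) + 2) ^ 3 * f (a + 2) ≤ ((a : ℚ) + 2) ^ 3 * U := by gcongr
    have k3 : ((a : ℚ) + 2) ^ 3 * U ≤ (a : ℚ) ^ 3 * (1001 / 1000) * U := by gcongr
    have k4 : (a : ℚ) ^ 3 * (U * (1001 / 1000)) < (a : ℚ) ^ 3 * L := by gcongr
    nlinarith
  · have hL0 : 0 < L := by nlinarith
    have k1 : ((b : ℚ) + 2) ^ 3 * L ≤ ((b : ℚ) + 2) ^ 3 * f (b + 2) := by gcongr
    have k2 : (b : ℚ) ^ 3 * f b ≤ (b : ℚ) ^ 3 * U := by gcongr
    have k3 : (b : ℚ) ^ 3 * L ≤ ((b : ℚ) + 2) ^ 3 * L := by gcongr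
    have k4 : (b : ℚ) ^ 3 * U < (b : ℚ) ^ 3 * L := by
      have : U < L := by nlinarith
      gcongr
    linarith

theorem key (n : ℕ) (hn : 7000 ≤ n) (h : sig3 n = sig3 (n + 2)) (a b : ℕ)
    (hab : (a = n ∧ b = n + 2) ∨ (a = n + 2 ∧ b = n)) (S : Finset ℕ) (T : List ℕ)
    (hS : ∀ d ∈ S, d ∣ a) (hT : ∀ t ∈ T, ¬ t ∣ b)
    (hLU : (∑ d ∈ (Ico 1 101).filter (fun d : ℕ => ∀ t ∈ T, ¬ t ∣ d), 1 / (d : ℚ) ^ 3 + 1 / 20000)
      * (1001 / 1000) < ∑ d ∈ S, 1 / (d : ℚ) ^ 3) : False := by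
  refine sep n hn h a b hab _ _ ?_ (lower S a (by omega) hS)
    (upper (fun d : ℕ => ∀ t ∈ T, ¬ t ∣ d) b (fun d hd t ht htd => hT t ht (htd.trans hd))) hLU
  positivity

theorem n1 : (∑ d ∈ (Ico 1 101).filter (fun d : ℕ => ∀ t ∈ ([4, 3] : List ℕ), ¬ t ∣ d), 1 / (d : ℚ) ^ 3 + 1 / 20000)
      * (1001 / 1000) < ∑ d ∈ ({1, 2, 4} : Finset ℕ), 1 / (d : ℚ) ^ 3 := by decide +kernel
theorem n2 : (∑ d ∈ (Ico 1 101).filter (fun d : ℕ => ∀ t ∈ ([3] : List ℕ), ¬ t ∣ d), 1 / (d : ℚ) ^ 3 + 1 / 20000)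
      * (1001 / 1000) < ∑ d ∈ ({1, 2, 3, 6} : Finset ℕ), 1 / (d : ℚ) ^ 3 := by decide +kernel
theorem n3 : (∑ d ∈ (Ico 1 101).filter (fun d : ℕ => ∀ t ∈ ([2, 3] : List ℕ), ¬ t ∣ d), 1 / (d : ℚ) ^ 3 + 1 / 20000)
      * (1001 / 1000) < ∑ d ∈ ({1, 3} : Finset ℕ), 1 / (d : ℚ) ^ 3 := by decide +kernel
theorem n5 : (∑ d ∈ (Ico 1 101).filter (fun d : ℕ => ∀ t ∈ ([2, 3, 5] : List ℕ), ¬ t ∣ d), 1 / (d : ℚ) ^ 3 + 1 / 20000)
      * (1001 / 1000) < ∑ d ∈ ({1, 5} : Finset ℕ), 1 / (d : ℚ) ^ 3 := by decide +kernel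
theorem n7 : (∑ d ∈ (Ico 1 101).filter (fun d : ℕ => ∀ t ∈ ([2, 3, 5, 7] : List ℕ), ¬ t ∣ d), 1 / (d : ℚ) ^ 3 + 1 / 20000)
      * (1001 / 1000) < ∑ d ∈ ({1, 7} : Finset ℕ), 1 / (d : ℚ) ^ 3 := by decide +kernel

theorem big (n : ℕ) (hn : 7000 ≤ n) (h : sig3 n = sig3 (n + 2)) :
    Nat.gcd (n * (n + 2)) 210 = 1 := by
  have K1 : ∀ a b, (a = n ∧ b = n + 2) ∨ (a = n + 2 ∧ b = n) → 4 ∣ a → ¬ 4 ∣ b → ¬ 3 ∣ b → False :=
    fun a b hab h1 h2 h3 => key n hn h a b hab {1, 2, 4} [4, 3] (by simp; omega) (by simp [h2, h3]) n1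
  have K2 : ∀ a b, (a = n ∧ b = n + 2) ∨ (a = n + 2 ∧ b = n) → 6 ∣ a → ¬ 3 ∣ b → False :=
    fun a b hab h1 h2 => key n hn h a b hab {1, 2, 3, 6} [3] (by simp; omega) (by simp [h2]) n2
  have K3 : ∀ a b, (a = n ∧ b = n + 2) ∨ (a = n + 2 ∧ b = n) → 3 ∣ a → ¬ 2 ∣ b → ¬ 3 ∣ b → False :=
    fun a b hab h1 h2 h3 => key n hn h a b hab {1, 3} [2, 3] (by simp; omega) (by simp; omega) n3
  have K5 : ∀ a b, (a = n ∧ b = n + 2) ∨ (a = n + 2 ∧ b = n) → 5 ∣ a → ¬ 2 ∣ b → ¬ 3 ∣ b →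
      ¬ 5 ∣ b → False :=
    fun a b hab h1 h2 h3 h4 => key n hn h a b hab {1, 5} [2, 3, 5] (by simp; omega) (by simp; omega) n5
  have K7 : ∀ a b, (a = n ∧ b = n + 2) ∨ (a = n + 2 ∧ b = n) → 7 ∣ a → ¬ 2 ∣ b → ¬ 3 ∣ b →
      ¬ 5 ∣ b → ¬ 7 ∣ b → False :=
    fun a b hab h1 h2 h3 h4 h5 => key n hn h a b hab {1, 7} [2, 3, 5, 7] (by simp; omega)
      (by simp; omega) n7
  have A1 := K1 n (n + 2) (by simp)
  have B1 := K1 (n + 2) n (by simp)
  have A2 := K2 n (n + 2) (by simp)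
  have B2 := K2 (n + 2) n (by simp)
  have A3 := K3 n (n + 2) (by simp)
  have B3 := K3 (n + 2) n (by simp)
  have A5 := K5 n (n + 2) (by simp)
  have B5 := K5 (n + 2) n (by simp)
  have A7 := K7 n (n + 2) (by simp)
  have B7 := K7 (n + 2) n (by simp)
  clear K1 K2 K3 K5 K7
  have c2 : ¬ 2 ∣ n := by
    intro h2
    by_cases h3 : 3 ∣ n
    · exact A2 (by omega) (by omega)
    by_cases h3' : 3 ∣ n + 2
    · exact B2 (by omega) h3
    by_cases h4 : 4 ∣ n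
    · exact A1 h4 (by omega) h3'
    · exact B1 (by omega) h4 h3
  have c2' : ¬ 2 ∣ n + 2 := by omega
  have c3 : ¬ 3 ∣ n := fun h3 => A3 h3 c2' (by omega)
  have c3' : ¬ 3 ∣ n + 2 := fun h3 => B3 h3 c2 c3
  have c5 : ¬ 5 ∣ n := fun h5 => A5 h5 c2' c3' (by omega)
  have c5' : ¬ 5 ∣ n + 2 := fun h5 => B5 h5 c2 c3 c5
  have c7 : ¬ 7 ∣ n := fun h7 => A7 h7 c2' c3' c5' (by omega)
  have c7' : ¬ 7 ∣ n + 2 := fun h7 => B7 h7 c2 c3 c5 c7
  have cop : ∀ m, ¬ 2 ∣ m → ¬ 3 ∣ m → ¬ 5 ∣ m → ¬ 7 ∣ m → Nat.Coprime m 210 := by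
    intro m g2 g3 g5 g7
    have p2 := ((Nat.Prime.coprime_iff_not_dvd Nat.prime_two).2 g2).symm
    have p3 := ((Nat.Prime.coprime_iff_not_dvd Nat.prime_three).2 g3).symm
    have p5 := ((Nat.Prime.coprime_iff_not_dvd Nat.prime_five).2 g5).symm
    have p7 := ((Nat.Prime.coprime_iff_not_dvd (by norm_num : Nat.Prime 7)).2 g7).symm
    exact (show 210 = 2 * 3 * 5 * 7 by norm_num) ▸ ((p2.mul_right p3).mul_right p5).mul_right p7
  exact Nat.Coprime.mul_left (cop n c2 c3 c5 c7) (cop (n + 2) c2' c3' c5' c7')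

theorem result (n : ℕ) (hn : 0 < n) (h : sig3 n = sig3 (n + 2)) :
    Nat.gcd (n * (n + 2)) 210 = 1 := by
  by_cases hs : n < 7000
  · exact small n hn hs h
  · exact big n (by omega) h

end Pool.Agent.Results.MP_cec416_nt.Coprime210
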